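import Mathlib
import Pool.Agent.Y714.KG.Stm
import Pool.Agent.Y714.KE.BasU

set_option autoImplicit false
set_option linter.unusedSectionVars false

/-!
Project KG: brackets are bounded by the sizes.
-/

namespace Pool.Agent.Y77.KG

open Pool.Agent.Y714.KE (Al Em Ux dg SYM cjA cjA_mk card_Em finrank_ne sum_finrank)
open Pool.Agent.Y714.KF (br pm ext ubas ineqs pm_equiv pm_conj ext_some ext_none cj card_emb)
open Pool.Agent.Y714.KG
open NumberField Module Finset ComplexConjugate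
open NumberField.Units NumberField.Units.dirichletUnitTheorem NumberField.InfinitePlace

section

variable (F : Type) [Field F] [NumberField F] {s : Type} [Fintype s] [DecidableEq s]
  {K : s → Type} [∀ i, Field (K i)] [∀ i, NumberField (K i)] [∀ i, Algebra F (K i)]

theorem rs_cjA (e : Em K) : rs F (cjA e) = ComplexEmbedding.conjugate (rs F e) := rfl

theorem conj_conj' {L : Type} [Field L] (w : L →+* ℂ) :
    ComplexEmbedding.conjugate (ComplexEmbedding.conjugate w) = w := by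
  ext x
  simp [ComplexEmbedding.conjugate]

theorem cjA_cjA (e : Em K) : cjA (cjA e) = e := by
  obtain ⟨i, σ⟩ := e
  rw [cjA_mk, cjA_mk, conj_conj']

/-- conjugation on fibres -/
noncomputable def cF {w w' : F →+* ℂ} (h : w' = ComplexEmbedding.conjugate w) :
    Ef F K w ≃ Ef F K w' where
  toFun e := ⟨cjA e.1, by rw [rs_cjA, e.2, h]⟩
  invFun e := ⟨cjA e.1, by rw [rs_cjA, e.2, h, conj_conj']⟩
  left_inv e := Subtype.ext (cjA_cjA e.1)
  right_inv e := Subtype.ext (cjA_cjA e.1)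

theorem SYM_cjA {v : Em K → ℂ × ℂ} (h : SYM v) (e : Em K) :
    v (cjA e) = (conj (v e).1, conj (v e).2) := h e.1 e.2

theorem pm_rv_conj {v : Em K → ℂ × ℂ} (h : SYM v) {w w' : F →+* ℂ}
    (hw : w' = ComplexEmbedding.conjugate w) : pm (rv F w' v) = pm (rv F w v) := by
  rw [← pm_conj (rv F w v), ← pm_equiv (cF F hw) (rv F w' v)]
  congr 1
  funext e
  exact SYM_cjA h e.1

theorem pm_ext_conj {v : Em K → ℂ × ℂ} (h : SYM v) {w w' : F →+* ℂ}
    (hw : w' = ComplexEmbedding.conjugate w) (e : Ef F K w) :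
    pm (ext (rv F w' v) (cF F hw e)) = pm (ext (rv F w v) e) := by
  rw [← pm_conj (ext (rv F w v) e), ← pm_equiv (cF F hw).optionCongr
    (ext (rv F w' v) (cF F hw e))]
  congr 1
  funext o
  cases o with
  | none =>
    simp only [Equiv.optionCongr_apply, Option.map_none, ext_none]
    exact SYM_cjA h e.1
  | some f =>
    simp only [Equiv.optionCongr_apply, Option.map_some, ext_some]
    exact SYM_cjA h f.1

theorem LGF_cjA {v : Em K → ℂ × ℂ} (h : SYM v) (e : Em K) : LGF F v (cjA e) = LGF F v e := by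
  have h1 : rs F (cjA e) = ComplexEmbedding.conjugate (rs F e) := rs_cjA F e
  have h2 := pm_ext_conj F h h1 ⟨e, rfl⟩
  have h3 := pm_rv_conj F h h1
  unfold LGF
  rw [h3]
  have h4 : (⟨cjA e, rfl⟩ : Ef F K (rs F (cjA e))) = cF F h1 ⟨e, rfl⟩ := rfl
  rw [h4, h2]

theorem LGF_mk {v : Em K → ℂ × ℂ} (h : SYM v) (i : s) (σ : K i →+* ℂ) :
    LGF F v ⟨i, (InfinitePlace.mk σ).embedding⟩ = LGF F v ⟨i, σ⟩ := by
  rcases embedding_mk_eq σ with h1 | h1
  · rw [h1]
  · rw [h1]
    exact LGF_cjA F h ⟨i, σ⟩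

theorem finrank_mLF (v : Em K → ℂ × ℂ) (i : s) :
    (finrank ℚ (K i) : ℝ) * mLF F v i = ∑ σ : K i →+* ℂ, LGF F v ⟨i, σ⟩ := by
  unfold mLF
  rw [mul_comm, div_mul_cancel₀ _ (finrank_ne i)]

theorem sum_LGF {v : Em K → ℂ × ℂ} (h : SYM v) (i : s) :
    ∑ w : InfinitePlace (K i), (mult w : ℝ) * (LGF F v ⟨i, w.embedding⟩ - mLF F v i) = 0 := by
  classical
  have h1 : ∑ σ : K i →+* ℂ, (LGF F v ⟨i, σ⟩ - mLF F v i) = 0 := by
    rw [sum_sub_distrib, sum_const, card_univ, card_emb, nsmul_eq_mul, finrank_mLF, sub_self]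
  rw [← sum_fiberwise (univ : Finset (K i →+* ℂ)) (fun σ => InfinitePlace.mk σ)] at h1
  rw [← h1]
  refine sum_congr rfl fun w _ => ?_
  rw [← card_filter_mk_eq w, ← nsmul_eq_mul, ← sum_const]
  refine sum_congr rfl fun σ hσ => ?_
  rw [← (mem_filter.1 hσ).2, LGF_mk F h]

/-- the logarithmic vector of a component -/
noncomputable def lvF (v : Em K → ℂ × ℂ) (i : s) : logSpace (K i) :=
  fun w => (mult w.1 : ℝ) * (LGF F v ⟨i, w.1.embedding⟩ - mLF F v i)

theorem ccF_eq (v : Em K → ℂ × ℂ) (j : Ux K) :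
    ccF F v j = (ubas (K j.1)).repr (lvF F v j.1) j.2 := rfl

/-- tuples with bounded coordinates are balanced in each component -/
theorem exists_balanceF (i : s) (C : ℝ) : ∃ C' : ℝ, 0 < C' ∧ ∀ v : Em K → ℂ × ℂ, SYM v →
    (∀ j, |ccF F v ⟨i, j⟩| ≤ C) → ∀ σ, LGF F v ⟨i, σ⟩ - mLF F v i ≤ C' := by
  classical
  set C1 : ℝ := |C| * ∑ j, ‖ubas (K i) j‖ with hC1
  have hC1' : 0 ≤ C1 := by positivity
  refine ⟨Fintype.card (InfinitePlace (K i)) * C1 + 1, by positivity, fun v hs hc σ => ?_⟩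
  have h1 : ‖lvF F v i‖ ≤ C1 := by
    rw [← (ubas (K i)).sum_repr (lvF F v i), hC1, mul_sum]
    refine (norm_sum_le _ _).trans (sum_le_sum fun j _ => ?_)
    rw [norm_smul, Real.norm_eq_abs]
    exact mul_le_mul_of_nonneg_right ((hc j).trans (le_abs_self C)) (norm_nonneg _)
  have h2 : ∀ w : InfinitePlace (K i), w ≠ w₀ →
      |(mult w : ℝ) * (LGF F v ⟨i, w.embedding⟩ - mLF F v i)| ≤ C1 :=
    fun w hw => (norm_le_pi_norm (lvF F v i) ⟨w, hw⟩).trans h1
  have h3 : ∀ w : InfinitePlace (K i), (mult w : ℝ) * (LGF F v ⟨i, w.embedding⟩ - mLF F v i) ≤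
      Fintype.card (InfinitePlace (K i)) * C1 := by
    intro w
    by_cases hw : w = w₀
    · have h4 := sum_LGF F hs i
      rw [← add_sum_erase univ _ (mem_univ w)] at h4
      have h5 : |∑ x ∈ univ.erase w, (mult x : ℝ) * (LGF F v ⟨i, x.embedding⟩ - mLF F v i)| ≤
          Fintype.card (InfinitePlace (K i)) * C1 := by
        refine (abs_sum_le_sum_abs _ _).trans ?_
        calc ∑ x ∈ univ.erase w, |(mult x : ℝ) * (LGF F v ⟨i, x.embedding⟩ - mLF F v i)| ≤
            ∑ x ∈ univ.erase w, C1 := sum_le_sum fun x hx =>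
              h2 x (fun h => (mem_erase.1 hx).1 (h.trans hw.symm))
          _ = (univ.erase w).card * C1 := by rw [sum_const, nsmul_eq_mul]
          _ ≤ _ := by
              gcongr
              exact_mod_cast card_le_univ _
      have h6 := neg_abs_le
        (∑ x ∈ univ.erase w, (mult x : ℝ) * (LGF F v ⟨i, x.embedding⟩ - mLF F v i))
      linarith
    · refine (le_abs_self _).trans ((h2 w hw).trans ?_)
      have : (1 : ℝ) ≤ Fintype.card (InfinitePlace (K i)) := by
        exact_mod_cast Fintype.card_pos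
      nlinarith
  have h4 := h3 (InfinitePlace.mk σ)
  rw [LGF_mk F hs] at h4
  have h5 : (1 : ℝ) ≤ mult (InfinitePlace.mk σ) := by exact_mod_cast one_le_mult
  by_cases h6 : 0 ≤ LGF F v ⟨i, σ⟩ - mLF F v i
  · nlinarith
  · push Not at h6
    have : 0 ≤ (Fintype.card (InfinitePlace (K i)) : ℝ) * C1 := by positivity
    linarith

/-- the sum over the fibres -/
theorem sum_Ef (g : Em K → ℝ) : ∑ w : F →+* ℂ, ∑ e : Ef F K w, g e.1 = ∑ e : Em K, g e := by
  let E : (Σ w : F →+* ℂ, Ef F K w) ≃ Em K :=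
    { toFun := fun x => x.2.1
      invFun := fun e => ⟨rs F e, ⟨e, rfl⟩⟩
      left_inv := fun x => by
        obtain ⟨w, e, he⟩ := x
        subst he
        rfl
      right_inv := fun e => rfl }
  rw [← Fintype.sum_sigma (fun x : (Σ w : F →+* ℂ, Ef F K w) => g x.2.1)]
  exact Fintype.sum_equiv E _ _ fun x => rfl

theorem LGF_eq (v : Em K → ℂ × ℂ) (w : F →+* ℂ) (e : Ef F K w) :
    LGF F v e.1 = (1 / 2) * (Real.log (pm (ext (rv F w v) e)) - Real.log (pm (rv F w v))) := by
  obtain ⟨e, he⟩ := e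
  subst he
  rfl

variable (K)

/-- BRF: brackets are bounded by the sizes -/
theorem brf (h : S_CRD F K) : S_BRF F K := by
  intro hodd C
  have hcard : ∀ w : F →+* ℂ, Odd (Fintype.card (Ef F K w)) := fun w => by
    rw [h.2.1 w]; exact hodd
  choose c1 hc1 hineq using fun w : F →+* ℂ => ineqs (J := Ef F K w) (hcard w)
  choose D hD hbal using fun i : s => exists_balanceF F (K := K) i C
  set C1 : ℝ := 1 + ∑ w, c1 w with hC1def
  have hc1le : ∀ w, c1 w ≤ C1 := fun w => by
    have := single_le_sum (f := c1) (fun j _ => (hc1 j).le) (mem_univ w)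
    linarith
  have hC1one : 1 ≤ C1 := by
    have := sum_nonneg (s := univ) (f := c1) fun j _ => (hc1 j).le
    linarith
  have hC1 : 0 < C1 := by linarith
  have hlC1 : 0 ≤ Real.log C1 := Real.log_nonneg hC1one
  have hdF : 0 < dF F K := hodd.pos
  have hn0 : 0 < dg K := by
    have h1 : dg K = finrank ℚ F * dF F K := by
      unfold dg dF
      rw [mul_sum]
      exact sum_congr rfl fun i _ => h.2.2 i
    rw [h1]
    exact Nat.mul_pos finrank_pos hdF
  have hnR : (0 : ℝ) < dg K := by exact_mod_cast hn0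
  set C2 : ℝ := ∑ i, D i with hC2
  have hDle : ∀ i, D i ≤ C2 := fun i => single_le_sum (f := D) (fun j _ => (hD j).le) (mem_univ i)
  set N : ℝ := (Fintype.card (F →+* ℂ) : ℝ) with hN
  refine ⟨Real.exp (Real.log C1 / 2 + 2 * C2 + N * Real.log C1 / dg K), Real.exp_pos _,
    fun v hs hv hc e f hef => ?_⟩
  by_cases hbr : ‖br (v e) (v f)‖ = 0
  · rw [hbr]
    positivity
  have hbrpos : 0 < ‖br (v e) (v f)‖ := lt_of_le_of_ne (norm_nonneg _) (Ne.symm hbr)
  have hsumw : ∀ w : F →+* ℂ, ∑ e : Ef F K w, LGF F v e.1 ≤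
      (Real.log C1 + Real.log (pm (rv F w v))) / 2 := by
    intro w
    obtain ⟨h1, h2, h3, _⟩ := hineq w (rv F w v) (hv w)
    have e1 : ∑ e : Ef F K w, LGF F v e.1 = (1 / 2) * (Real.log (∏ e, pm (ext (rv F w v) e)) -
        Fintype.card (Ef F K w) * Real.log (pm (rv F w v))) := by
      rw [Real.log_prod (fun σ _ => (h1 σ).ne')]
      simp_rw [LGF_eq]
      rw [← mul_sum, sum_sub_distrib, sum_const, card_univ, nsmul_eq_mul]
    have e2 : Real.log (∏ e, pm (ext (rv F w v) e)) ≤ Real.log C1 +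
        (Fintype.card (Ef F K w) + 1) * Real.log (pm (rv F w v)) := by
      have h4 := Real.log_le_log (prod_pos fun σ _ => h1 σ) h3
      rw [Real.log_mul (hc1 w).ne' (pow_ne_zero _ (hv w).ne'), Real.log_pow] at h4
      have h5 := Real.log_le_log (hc1 w) (hc1le w)
      push_cast at h4
      linarith
    rw [e1]
    nlinarith
  have hsum : ∑ e : Em K, LGF F v e ≤ (N * Real.log C1 + Real.log (pF F v)) / 2 := by
    rw [← sum_Ef F (LGF F v)]
    refine (sum_le_sum fun w _ => hsumw w).trans (le_of_eq ?_)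
    rw [← sum_div, sum_add_distrib, sum_const, card_univ, nsmul_eq_mul]
    unfold pF
    rw [Real.log_prod (fun w _ => (hv w).ne')]
  have e4 : 2 * Real.log ‖br (v e) (v f)‖ ≤ Real.log C1 + 2 * LGF F v e + 2 * LGF F v f := by
    obtain ⟨h1, h2, h3, _⟩ := hineq (rs F e) (rv F (rs F e) v) (hv _)
    set w := rs F e with hw
    have h5 := h2 ⟨e, rfl⟩ ⟨f, hef.symm⟩
    have h1e := h1 ⟨e, rfl⟩
    have h1f := h1 ⟨f, hef.symm⟩
    have h6 := Real.log_le_log (pow_pos (mul_pos hbrpos (hv w)) 2) h5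
    rw [Real.log_pow, Real.log_mul hbr (hv w).ne', Real.log_mul (hc1 w).ne'
      (mul_pos h1e h1f).ne', Real.log_mul h1e.ne' h1f.ne'] at h6
    have h7 := LGF_eq F v w ⟨e, rfl⟩
    have h8 := LGF_eq F v w ⟨f, hef.symm⟩
    have h9 := Real.log_le_log (hc1 w) (hc1le w)
    push_cast at h6
    dsimp only at h7 h8
    linarith
  have hui : ∀ e : Em K, LGF F v e ≤ C2 + uF F v e.1 + N * Real.log C1 / (2 * dg K) := by
    intro e
    have e5 := hbal e.1 v hs (fun j => hc ⟨e.1, j⟩) e.2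
    have e6 : mLF F v e.1 = uF F v e.1 - ((1 / 2) * Real.log (pF F v) - ∑ e, LGF F v e) / dg K := by
      unfold uF; ring
    have e7 : -(((1 / 2) * Real.log (pF F v) - ∑ e, LGF F v e) / dg K) ≤
        N * Real.log C1 / (2 * dg K) := by
      rw [← neg_div, div_le_div_iff₀ hnR (by positivity)]
      nlinarith
    have e8 := hDle e.1
    have e9 : LGF F v e - mLF F v e.1 ≤ D e.1 := e5
    linarith
  have g1 := hui e
  have g2 := hui f
  have g3 : N * Real.log C1 / dg K = 2 * (N * Real.log C1 / (2 * dg K)) := by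
    field_simp
  have e8 : Real.log ‖br (v e) (v f)‖ ≤ (Real.log C1 / 2 + 2 * C2 + N * Real.log C1 / dg K) +
      (uF F v e.1 + uF F v f.1) := by
    rw [g3]
    linarith
  rw [← Real.exp_add, ← Real.exp_log hbrpos]
  exact Real.exp_le_exp.2 e8

end

end Pool.Agent.Y77.KG
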