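import Mathlib
import Pool.Agent.Y714.KG.Stm

set_option autoImplicit false
set_option linter.unusedSectionVars false

/-!
Project KG: fibres of the homomorphisms, and lattices determine the points.
-/

namespace Pool.Agent.Y77.KG

open Pool.Agent.Y714.KE (Al Em vc sm)
open Pool.Agent.Y714.KF (br)
open Pool.Agent.Y714.KG
open NumberField Module Finset

section

variable (F : Type) [Field F] [NumberField F]

/-- the number of extensions of a homomorphism -/
theorem card_ext (L : Type) [Field L] [NumberField L] [Algebra F L] (w : F →+* ℂ) :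
    Nat.card {σ : L →+* ℂ // σ.comp (algebraMap F L) = w} = finrank F L := by
  let _ : Algebra F ℂ := w.toAlgebra
  have : FiniteDimensional F L := Module.Finite.of_restrictScalars_finite ℚ F L
  let e : {σ : L →+* ℂ // σ.comp (algebraMap F L) = w} ≃ (L →ₐ[F] ℂ) :=
    { toFun := fun σ => { σ.1 with commutes' := fun r => RingHom.congr_fun σ.2 r }
      invFun := fun f => ⟨f.toRingHom, RingHom.ext fun r => f.commutes r⟩
      left_inv := fun σ => rfl
      right_inv := fun f => rfl }
  rw [Nat.card_congr e, Nat.card_eq_fintype_card, AlgHom.card F L ℂ]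

variable {s : Type} [Fintype s] [DecidableEq s]
  (K : s → Type) [∀ i, Field (K i)] [∀ i, NumberField (K i)] [∀ i, Algebra F (K i)]

/-- CRD: fibres -/
theorem crd : S_CRD F K := by
  refine ⟨fun i w => card_ext F (K i) w, fun w => ?_, fun i => ?_⟩
  · let e : Ef F K w ≃ Σ i, {σ : K i →+* ℂ // σ.comp (algebraMap F (K i)) = w} :=
      { toFun := fun e => ⟨e.1.1, ⟨e.1.2, e.2⟩⟩
        invFun := fun x => ⟨⟨x.1, x.2.1⟩, x.2.2⟩
        left_inv := fun e => rfl
        right_inv := fun e => rfl }
    rw [← Nat.card_eq_fintype_card, Nat.card_congr e, Nat.card_sigma]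
    exact Finset.sum_congr rfl fun i _ => card_ext F (K i) w
  · exact (Module.finrank_mul_finrank ℚ F (K i)).symm

variable {K}

theorem vc_gl (a b c d : F) (P : Al K × Al K) (e : Em K) : vc (glF F a b c d P) e =
    (rs F e a * (vc P e).1 + rs F e b * (vc P e).2, rs F e c * (vc P e).1 + rs F e d * (vc P e).2) := by
  refine Prod.ext ?_ ?_
  · change e.2 (algebraMap F (K e.1) a * P.1 e.1 + algebraMap F (K e.1) b * P.2 e.1) = _
    rw [map_add, map_mul, map_mul]
    rfl
  · change e.2 (algebraMap F (K e.1) c * P.1 e.1 + algebraMap F (K e.1) d * P.2 e.1) = _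
    rw [map_add, map_mul, map_mul]
    rfl

theorem br_gl (a b c d : F) (P : Al K × Al K) (e f : Em K) (h : rs F e = rs F f) :
    br (vc (glF F a b c d P) e) (vc (glF F a b c d P) f) =
      rs F e (a * d - b * c) * br (vc P e) (vc P f) := by
  rw [vc_gl, vc_gl, ← h, map_sub, map_mul, map_mul]
  unfold br
  ring

variable (K)

/-- INJ: lattices determine the points -/
theorem inj (h : S_CRD F K) : S_INJ F K := by
  intro h2 P P' _ hP' hL
  have h1 : P'.1 ∈ LF F P := by
    rw [hL]
    refine ⟨1, 0, ?_⟩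
    simp
  have h1' : P'.2 ∈ LF F P := by
    rw [hL]
    refine ⟨0, 1, ?_⟩
    simp
  obtain ⟨a, b, hab⟩ := h1
  obtain ⟨c, d, hcd⟩ := h1'
  have hgl : P' = glF F (a : F) b c d P := Prod.ext hab hcd
  refine ⟨1, a, b, c, d, fun i => one_ne_zero, ?_, ?_⟩
  · intro h0
    obtain ⟨w⟩ : Nonempty (F →+* ℂ) := inferInstance
    have h3 : 1 < Fintype.card (Ef F K w) := by rw [h.2.1 w]; omega
    obtain ⟨e, f, hef⟩ := Fintype.exists_pair_of_one_lt_card h3
    have h4 : rs F e.1 = rs F f.1 := e.2.trans f.2.symm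
    refine hP' e.1 f.1 (fun h5 => hef (Subtype.ext h5)) h4 ?_
    rw [hgl, br_gl F _ _ _ _ P _ _ h4, h0, map_zero, zero_mul]
  · rw [hgl]
    unfold sm
    rw [one_mul, one_mul]

end

end Pool.Agent.Y77.KG
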