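import Mathlib
import Pool.Agent.Y714.KG.Stm
import Pool.Agent.Y794.KW.Ni

set_option autoImplicit false
set_option linter.unusedSectionVars false

/-!
Project KG: the norms of the brackets are bounded below.
-/

namespace Pool.Agent.Y77.KG

open Pool.Agent.Y714.KE (Al FU Em vc cn cf)
open Pool.Agent.Y714.KF (FI br ct_le)
open Pool.Agent.Y714.KG
open NumberField Module Finset

section gal

/-- the algebraic numbers -/
noncomputable abbrev Om : IntermediateField ℚ ℂ := algebraicClosure ℚ ℂ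

variable {L M : Type} [Field L] [NumberField L] [Field M] [NumberField M]

theorem mem_Om (σ : L →+* ℂ) (x : L) : σ x ∈ Om := by
  have h1 : IsIntegral ℚ x := Algebra.IsIntegral.isIntegral x
  exact h1.map σ.toRatAlgHom

/-- the homomorphism to the algebraic numbers -/
noncomputable def lift (σ : L →+* ℂ) : L →+* Om := σ.codRestrict Om (mem_Om σ)

/-- the action of the automorphisms -/
noncomputable def TT (g : Om ≃ₐ[ℚ] Om) (σ : L →+* ℂ) : L →+* ℂ :=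
  (algebraMap Om ℂ).comp ((g : Om →+* Om).comp (lift σ))

theorem lift_TT (g : Om ≃ₐ[ℚ] Om) (σ : L →+* ℂ) (x : L) : lift (TT g σ) x = g (lift σ x) :=
  Subtype.ext rfl

theorem TT_symm (g : Om ≃ₐ[ℚ] Om) (σ : L →+* ℂ) : TT g.symm (TT g σ) = σ := by
  refine RingHom.ext fun x => ?_
  change ((g.symm (lift (TT g σ) x) : Om) : ℂ) = σ x
  rw [lift_TT, AlgEquiv.symm_apply_apply]
  rfl

theorem TT_symm' (g : Om ≃ₐ[ℚ] Om) (σ : L →+* ℂ) : TT g (TT g.symm σ) = σ := by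
  refine RingHom.ext fun x => ?_
  change ((g (lift (TT g.symm σ) x) : Om) : ℂ) = σ x
  rw [lift_TT, AlgEquiv.apply_symm_apply]
  rfl

theorem TT_comp [Algebra L M] (g : Om ≃ₐ[ℚ] Om) (σ : M →+* ℂ) :
    (TT g σ).comp (algebraMap L M) = TT g (σ.comp (algebraMap L M)) := rfl

/-- invariant products are rational -/
theorem rat_prod (S : Finset ((L →+* ℂ) × (M →+* ℂ)))
    (hS : ∀ (g : Om ≃ₐ[ℚ] Om), ∀ q ∈ S, (TT g q.1, TT g q.2) ∈ S) (a b : L) (c d : M) :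
    ∃ r : ℚ, ∏ q ∈ S, (q.1 a * q.2 d - q.1 b * q.2 c) = (r : ℂ) := by
  have : Algebra.IsAlgebraic ℚ Om := algebraicClosure.isAlgebraic ℚ ℂ
  have : Algebra.IsSeparable ℚ Om := Algebra.IsAlgebraic.isSeparable_of_perfectField
  have : IsAlgClosure ℚ Om := algebraicClosure.isAlgClosure ℚ ℂ
  have : Normal ℚ Om := IsAlgClosure.normal ℚ Om
  have : IsGalois ℚ Om := IsGalois.mk
  let X : Om := ∏ q ∈ S, (lift q.1 a * lift q.2 d - lift q.1 b * lift q.2 c)
  have h1 : ∀ g : Om ≃ₐ[ℚ] Om, g X = X := by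
    intro g
    change g (∏ q ∈ S, (lift q.1 a * lift q.2 d - lift q.1 b * lift q.2 c)) = _
    rw [map_prod]
    refine Finset.prod_nbij' (fun q => (TT g q.1, TT g q.2))
      (fun q => (TT g.symm q.1, TT g.symm q.2)) (fun q hq => hS g q hq)
      (fun q hq => hS g.symm q hq) (fun q _ => ?_) (fun q _ => ?_) (fun q _ => ?_)
    · exact Prod.ext (TT_symm g q.1) (TT_symm g q.2)
    · exact Prod.ext (TT_symm' g q.1) (TT_symm' g q.2)
    · dsimp only
      rw [lift_TT, lift_TT, lift_TT, lift_TT, map_sub, map_mul, map_mul]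
  obtain ⟨r, hr⟩ := IntermediateField.mem_bot.1 ((InfiniteGalois.mem_bot_iff_fixed X).2 h1)
  refine ⟨r, ?_⟩
  have h2 : ∏ q ∈ S, (q.1 a * q.2 d - q.1 b * q.2 c) = algebraMap Om ℂ X := by
    change _ = algebraMap Om ℂ (∏ q ∈ S, (lift q.1 a * lift q.2 d - lift q.1 b * lift q.2 c))
    rw [map_prod]
    rfl
  rw [h2, ← hr, ← IsScalarTower.algebraMap_apply]
  simp

/-- a nonzero rational algebraic integer has absolute value at least one -/
theorem one_le_norm {z : ℂ} (hz : IsIntegral ℤ z) (h0 : z ≠ 0) (r : ℚ) (hr : z = (r : ℂ)) :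
    1 ≤ ‖z‖ := by
  have h1 : IsIntegral ℤ r := by
    refine (isIntegral_algebraMap_iff (algebraMap ℚ ℂ).injective).1 ?_
    have : algebraMap ℚ ℂ r = z := by rw [hr]; simp
    rw [this]
    exact hz
  obtain ⟨n, hn⟩ := IsIntegrallyClosed.isIntegral_iff.1 h1
  have h2 : z = (n : ℂ) := by
    rw [hr, ← hn]
    simp
  have h3 : n ≠ 0 := by
    rintro rfl
    exact h0 (by rw [h2]; simp)
  rw [h2, Complex.norm_intCast]
  exact_mod_cast Int.one_le_abs h3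

end gal

section

variable (F : Type) [Field F] [NumberField F] {s : Type} [Fintype s] [DecidableEq s]
  (K : s → Type) [∀ i, Field (K i)] [∀ i, NumberField (K i)] [∀ i, Algebra F (K i)]

open scoped Classical in
/-- NIF: integrality of norms -/
theorem nif : S_NIF F K := by
  intro I
  have h1 := fun i => Pool.Agent.Y794.KW.exists_den (I i : FI (K i))
  choose m hm0 hm using h1
  have hm1 : ∀ i, (1 : ℝ) ≤ m i := fun i => by exact_mod_cast Nat.one_le_iff_ne_zero.2 (hm0 i)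
  let f : s × s → ℝ := fun q => (((m q.1 : ℝ) * m q.2) ^
    (Fintype.card ((K q.1 →+* ℂ) × (K q.2 →+* ℂ))))⁻¹
  have hf : ∀ q, 0 < f q := fun q => by
    have h1 := hm1 q.1
    have h2 := hm1 q.2
    change 0 < (((m q.1 : ℝ) * m q.2) ^ (Fintype.card ((K q.1 →+* ℂ) × (K q.2 →+* ℂ))))⁻¹
    positivity
  obtain ⟨c, hc, hc'⟩ : ∃ c : ℝ, 0 < c ∧ ∀ q, c ≤ f q := by
    rcases isEmpty_or_nonempty (s × s) with h | h
    · exact ⟨1, one_pos, fun q => (h.false q).elim⟩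
    · obtain ⟨q, hq⟩ := Finite.exists_min f
      exact ⟨f q, hf q, hq⟩
  refine ⟨c, hc, fun P hP hND i j => (hc' (i, j)).trans ?_⟩
  obtain ⟨hi1, hi2⟩ := ct_le.1 (hP i)
  obtain ⟨hj1, hj2⟩ := ct_le.1 (hP j)
  obtain ⟨a, ha⟩ := hm i _ hi1
  obtain ⟨b, hb⟩ := hm i _ hi2
  obtain ⟨c', hc'⟩ := hm j _ hj1
  obtain ⟨d, hd⟩ := hm j _ hj2
  set S := (univ : Finset ((K i →+* ℂ) × (K j →+* ℂ))).filter (fun q =>
      (⟨i, q.1⟩ : Em K) ≠ ⟨j, q.2⟩ ∧ rs F (⟨i, q.1⟩ : Em K) = rs F (⟨j, q.2⟩ : Em K)) with hS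
  have e1 : ∀ (σ : K i →+* ℂ) (τ : K j →+* ℂ), σ a * τ d - σ b * τ c' =
      ((m i : ℂ) * m j) * br (vc P ⟨i, σ⟩) (vc P ⟨j, τ⟩) := by
    intro σ τ
    rw [ha, hb, hc', hd]
    simp only [map_mul, map_natCast]
    change _ = ((m i : ℂ) * m j) * (σ (P.1 i) * τ (P.2 j) - σ (P.2 i) * τ (P.1 j))
    change (m i : ℂ) * σ (P.1 i) * ((m j : ℂ) * τ (P.2 j)) -
      (m i : ℂ) * σ (P.2 i) * ((m j : ℂ) * τ (P.1 j)) = _
    ring
  have hinv : ∀ (g : Om ≃ₐ[ℚ] Om), ∀ q ∈ S, (TT g q.1, TT g q.2) ∈ S := by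
    intro g q hq
    rw [hS, Finset.mem_filter] at hq ⊢
    refine ⟨mem_univ _, fun h => hq.2.1 ?_, ?_⟩
    · have h2 := congrArg (fun e : Em K => (⟨e.1, TT g.symm e.2⟩ : Em K)) h
      dsimp only at h2
      rwa [TT_symm, TT_symm] at h2
    · have h2 : q.1.comp (algebraMap F (K i)) = q.2.comp (algebraMap F (K j)) := hq.2.2
      change (TT g q.1).comp (algebraMap F (K i)) = (TT g q.2).comp (algebraMap F (K j))
      rw [TT_comp, TT_comp, h2]
  obtain ⟨r, hr⟩ := rat_prod S hinv (a : K i) b c' (d : K j)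
  have hint : IsIntegral ℤ (∏ q ∈ S, (q.1 (a : K i) * q.2 (d : K j) - q.1 b * q.2 c')) := by
    refine IsIntegral.prod _ fun q _ => ?_
    exact ((a.isIntegral_coe.map q.1.toIntAlgHom).mul (d.isIntegral_coe.map q.2.toIntAlgHom)).sub
      ((b.isIntegral_coe.map q.1.toIntAlgHom).mul (c'.isIntegral_coe.map q.2.toIntAlgHom))
  have hmc : ((m i : ℂ) * m j) ≠ 0 := by
    have h1 := hm0 i
    have h2 := hm0 j
    exact mul_ne_zero (by exact_mod_cast h1) (by exact_mod_cast h2)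
  have hne : ∏ q ∈ S, (q.1 (a : K i) * q.2 (d : K j) - q.1 b * q.2 c') ≠ 0 := by
    refine Finset.prod_ne_zero_iff.2 fun q hq => ?_
    rw [hS, Finset.mem_filter] at hq
    rw [e1]
    exact mul_ne_zero hmc (hND _ _ hq.2.1 hq.2.2)
  have h3 := one_le_norm hint hne r hr
  simp only [e1] at h3
  rw [Finset.prod_mul_distrib, Finset.prod_const, norm_mul, norm_pow, norm_prod, norm_mul,
    Complex.norm_natCast, Complex.norm_natCast] at h3
  have hmm : 1 ≤ (m i : ℝ) * m j := one_le_mul_of_one_le_of_one_le (hm1 i) (hm1 j)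
  have h4 : ((m i : ℝ) * m j) ^ S.card ≤ ((m i : ℝ) * m j) ^
      (Fintype.card ((K i →+* ℂ) × (K j →+* ℂ))) := by
    refine pow_le_pow_right₀ hmm ?_
    exact card_le_univ S
  have h5 : 0 ≤ ∏ q ∈ S, ‖br (vc P ⟨i, q.1⟩) (vc P ⟨j, q.2⟩)‖ :=
    Finset.prod_nonneg fun _ _ => norm_nonneg _
  change (((m i : ℝ) * m j) ^ (Fintype.card ((K i →+* ℂ) × (K j →+* ℂ))))⁻¹ ≤ _
  rw [inv_le_iff_one_le_mul₀ (by positivity)]
  calc 1 ≤ ((m i : ℝ) * m j) ^ S.card * ∏ q ∈ S, ‖br (vc P ⟨i, q.1⟩) (vc P ⟨j, q.2⟩)‖ := h3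
    _ ≤ ((m i : ℝ) * m j) ^ (Fintype.card ((K i →+* ℂ) × (K j →+* ℂ))) *
        ∏ q ∈ S, ‖br (vc P ⟨i, q.1⟩) (vc P ⟨j, q.2⟩)‖ := mul_le_mul_of_nonneg_right h4 h5
    _ = _ := mul_comm _ _

end

end Pool.Agent.Y77.KG
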